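import Pool.Agent.Lib.helper15.Geo

/-! A game of removing triples that simulates vertex geography. -/

namespace Pool.Agent.H.MP_cf31f8_lc

open Pool.Agent.Lib.CX Finset

structure G (V : Type) where
  vs : List V
  pr : Bool → V → Option V
  ty : V → Bool
  ρ : V

abbrev C (V : Type) := ℕ × ℕ × Bool × V

variable {V : Type} [DecidableEq V] (g : G V)

structure G.OK : Prop where
  mem : g.ρ ∈ g.vs
  none : ∀ j, g.pr j g.ρ = none
  tyρ : g.ty g.ρ = false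
  pred : ∀ v ∈ g.vs, ∀ j w, g.pr j v = some w → w ∈ g.vs ∧ g.ty w ≠ g.ty v
  ne : ∀ v ∈ g.vs, ∀ w, g.pr false v = some w → g.pr true v ≠ some w
  two : ∀ v ∈ g.vs, g.pr true v = .none ∨
    ∀ j, ∃ w, g.pr j v = some w ∧ ∀ v' ∈ g.vs, ∀ j', g.pr j' v' = some w → v' = v

def G.z : C V := (0, 0, false, g.ρ)
def G.x (j : Bool) (v : V) : C V := ((g.pr j v).map fun w => (0, 1, false, w)).getD (0, 5, j, v)
def G.U (c : C V) : Prop :=
  c.1 = 0 ∧ (c.2.1 = 2 ∨ c.2.1 = 4 ∨ c.2.1 = 1 ∧ g.ty c.2.2.2 = false ∨ (c.2.1 = 3 ∨ c.2.1 = 5) ∧ g.ty c.2.2.2 = true)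
instance : DecidablePred g.U := fun c => by unfold G.U; infer_instance

def G.NL (a b c : C V) : Prop := (g.U a ∧ b = (1, a.2) ∧ c = (2, a.2)) ∨
  (∃ j, ∃ v ∈ g.vs, a = g.x j v ∧ b = (0, 2, false, v) ∧ c = (0, 3, j, v)) ∨
  ∃ v, a = (0, 3, false, v) ∧ b = (0, 3, true, v) ∧ c = (0, 4, false, v)

def G.ZL (a b c : C V) : Prop :=
  ∃ j, ∃ v ∈ g.vs, (j = true → v = g.ρ) ∧ a = g.z ∧ b = (0, 1, j, v) ∧ c = (j.toNat + 1, 2, false, v)

def G.M (X Y : Finset (C V)) : Prop :=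
  ∃ a ∈ X, ∃ b ∈ X, ∃ c ∈ X, (g.NL a b c ∨ g.ZL a b c) ∧ Y = X \ {a, b, c}

def G.w (c : C V) : ZMod 2 := if g.U c then 1 else 0
def G.par (X : Finset (C V)) : ZMod 2 := ∑ c ∈ X, g.w c
def G.Solo (D : C V) (X : Finset (C V)) : Prop := ∀ u ∈ X, g.U u → u ≠ D → (1, u.2) ∈ X ∧ (2, u.2) ∈ X

variable {g}

theorem x_cases (j : Bool) (v : V) : (g.pr j v = none ∧ g.x j v = (0, 5, j, v)) ∨
    ∃ w, g.pr j v = some w ∧ g.x j v = (0, 1, false, w) := by
  unfold G.x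
  cases g.pr j v <;> simp

theorem wrec (X : Finset (C V)) : Win g.M X ↔ ∃ Y, g.M X Y ∧ ¬ Win g.M Y := by
  refine win_rec card (fun X Y => ?_) X
  rintro ⟨a, ha, b, -, c, -, -, rfl⟩
  exact card_lt_card ⟨sdiff_subset, fun h => by simpa using h ha⟩

theorem par_sdiff {X : Finset (C V)} {a b c : C V} (ha : a ∈ X) (hb : b ∈ X) (hc : c ∈ X) (h1 : a ≠ b) (h2 : a ≠ c)
    (h3 : b ≠ c) : g.par (X \ {a, b, c}) = g.par X + (g.w a + g.w b + g.w c) := by
  unfold G.par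
  rw [sum_sdiff_eq_sub (by simp [insert_subset_iff, *]), sum_insert (by simp [*]), sum_pair h3, CharTwo.sub_eq_add,
    add_assoc]

theorem NL_par (h : g.OK) {X : Finset (C V)} {a b c : C V} (ha : a ∈ X) (hb : b ∈ X) (hc : c ∈ X) (l : g.NL a b c) :
    g.par (X \ {a, b, c}) = g.par X + 1 := by
  obtain ⟨u, rfl, rfl⟩ | ⟨j, v, hv, rfl, rfl, rfl⟩ | ⟨v, rfl, rfl, rfl⟩ := l
  · have := u.1
    rw [par_sdiff ha hb hc (by grind) (by grind) (by simp)]
    rw [G.w, if_pos u]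
    simp [G.w, G.U]
  · obtain ⟨-, e⟩ | ⟨w, q, e⟩ := x_cases (g := g) j v <;> rw [e] at ha ⊢ <;>
      rw [par_sdiff ha hb hc (by simp) (by simp) (by simp)]
    · cases q : g.ty v <;> simp [G.w, G.U, q]
      decide
    · have := (h.pred v hv j w q).2
      cases q : g.ty v <;> simp_all [G.w, G.U]
      decide
  · rw [par_sdiff ha hb hc (by simp) (by simp) (by simp)]
    cases q : g.ty v <;> simp [G.w, G.U, q]
    decide

theorem NL_role {a b c : C V} (l : g.NL a b c) (t) (r : ℕ) (hr : r ≠ 0) (h : (r, t) ∈ ({a, b, c} : Finset (C V))) :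
    a = (0, t) := by
  obtain ⟨u, rfl, rfl⟩ | ⟨j, v, hv, rfl, rfl, rfl⟩ | ⟨v, rfl, rfl, rfl⟩ := l
  · have := u.1
    grind
  · have := x_cases (g := g) j v
    grind
  · grind

theorem NL_z {a b c : C V} (l : g.NL a b c) : g.z ∉ ({a, b, c} : Finset (C V)) := by
  obtain ⟨u, rfl, rfl⟩ | ⟨j, v, hv, rfl, rfl, rfl⟩ | ⟨v, rfl, rfl, rfl⟩ := l
  · grind [G.U, G.z]
  · have := x_cases (g := g) j v
    grind [G.z]
  · grind [G.z]

theorem NL_solo {D : C V} {X : Finset (C V)} {a b c : C V} (l : g.NL a b c) (s : g.Solo D X) :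
    g.Solo D (X \ {a, b, c}) := fun u hu h1 h2 => by
  have := s u (mem_sdiff.1 hu).1 h1 h2
  have := NL_role l u.2 1
  have := NL_role l u.2 2
  have := h1.1
  grind

theorem endgame (h : g.OK) (D : C V) (X : Finset (C V)) : g.z ∉ X → g.Solo D X →
    (∀ a ∈ X, ∀ b ∈ X, ∀ c ∈ X, g.NL a b c → D ∉ ({a, b, c} : Finset (C V))) →
    (Win g.M X ↔ g.par (X.erase D) = 1) := by
  induction X using Finset.strongInduction with
  | _ X ih =>
  intro hz hs hd
  have key : ∀ a ∈ X, ∀ b ∈ X, ∀ c ∈ X, g.NL a b c →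
      (Win g.M (X \ {a, b, c}) ↔ g.par (X.erase D) + 1 = 1) := fun a ha b hb c hc l => by
    have := hd a ha b hb c hc l
    rw [ih _ ⟨sdiff_subset, fun h => by simpa using h ha⟩ (by grind) (NL_solo l hs) (by grind),
      ← NL_par h (a := a) (b := b) (c := c) (by grind) (by grind) (by grind) l]
    congr! 2
    grind
  have two : ∀ s : ZMod 2, ¬ s + 1 = 1 ↔ s = 1 := by decide
  rw [wrec]
  constructor
  · rintro ⟨_, ⟨a, ha, b, hb, c, hc, l | ⟨j, v, -, -, rfl, -⟩, rfl⟩, q⟩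
    · rwa [key a ha b hb c hc l, two] at q
    · exact absurd ha hz
  · intro q
    obtain ⟨u, hu, e⟩ := exists_ne_zero_of_sum_ne_zero (q.trans_ne one_ne_zero)
    have e : g.U u := by simpa [G.w] using e
    obtain ⟨h1, h2⟩ := hs u (mem_of_mem_erase hu) e (ne_of_mem_erase hu)
    have l : g.NL u (1, u.2) (2, u.2) := .inl ⟨e, rfl, rfl⟩
    exact ⟨_, ⟨u, mem_of_mem_erase hu, _, h1, _, h2, .inl l, rfl⟩, by
      rwa [key _ (mem_of_mem_erase hu) _ h1 _ h2 l, two]⟩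

theorem endgame' (h : g.OK) {X : Finset (C V)} (hz : g.z ∉ X) (hs : g.Solo g.z X) : Win g.M X ↔ g.par X = 1 := by
  rw [endgame h g.z X hz hs fun a _ b _ c _ => NL_z, erase_eq_of_notMem hz]

theorem active (h : g.OK) {X : Finset (C V)} {j : Bool} {v : V} (hs : g.Solo g.z X) (h1 : g.z ∈ X)
    (h2 : (0, 1, j, v) ∈ X) (h3 : (j.toNat + 1, 2, false, v) ∈ X) (h4 : (0, 2, false, v) ∉ X) :
    Win g.M (X \ {g.z, (0, 1, j, v), (j.toNat + 1, 2, false, v)}) ↔ g.par X + (if g.ty v then 0 else 1) = 1 := by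
  rw [endgame' h (by simp) fun u hu h5 h6 => ?_, par_sdiff h1 h2 h3 (by simp [G.z]) (by simp [G.z]) (by simp)]
  · cases q : g.ty v <;> simp [G.w, G.U, G.z, q]
  · have := hs u (mem_sdiff.1 hu).1 h5 h6
    have := h5.1
    grind [G.z]

theorem dormant (h : g.OK) {X : Finset (C V)} {j i : Bool} {v : V} (hv : v ∈ g.vs) (hs : g.Solo g.z X)
    (h4 : (0, 2, false, v) ∈ X) (h5 : g.x i v ∈ X) (h6 : ∀ j, (0, 3, j, v) ∈ X) (h7 : (0, 4, false, v) ∈ X) :
    Win g.M (X \ {g.z, (0, 1, j, v), (j.toNat + 1, 2, false, v)}) := by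
  set Y := X \ {g.z, (0, 1, j, v), (j.toNat + 1, 2, false, v)} with hY
  have s : g.Solo (0, 2, false, v) Y := fun u hu h5 h6 => by
    have := hs u (mem_sdiff.1 hu).1 h5 (by grind [G.U, G.z])
    have := h5.1
    grind [G.z]
  have hz : g.z ∉ Y := by simp [hY]
  have b : (0, 2, false, v) ∈ Y := by simp [hY, h4, G.z]
  have d : ∀ j, (0, 3, j, v) ∈ Y := by simp [hY, h6, G.z]
  rw [wrec]
  by_cases q : g.par Y = 1
  · have l : g.NL (g.x i v) (0, 2, false, v) (0, 3, i, v) := .inr (.inl ⟨i, v, hv, rfl, rfl, rfl⟩)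
    have hx : g.x i v ∈ Y := by
      have := x_cases (g := g) i v
      have := h.pred v hv i
      grind [G.z]
    refine ⟨_, ⟨_, hx, _, b, _, d i, .inl l, rfl⟩, ?_⟩
    rw [endgame' h (by grind) fun u hu h5 h6 => NL_solo l s u hu h5 (by grind), NL_par h hx b (d i) l, q]
    decide
  · have l : g.NL (0, 3, false, v) (0, 3, true, v) (0, 4, false, v) := .inr (.inr ⟨v, rfl, rfl, rfl⟩)
    have hg : (0, 4, false, v) ∈ Y := by simp [hY, h7, G.z]
    refine ⟨_, ⟨_, d _, _, d _, _, hg, .inl l, rfl⟩, ?_⟩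
    rw [endgame h _ _ (by grind) (NL_solo l s) fun a ha b hb c hc l' => ?_]
    · have e := NL_par h (d _) (d _) hg l
      rw [G.par, ← add_sum_erase _ _ (show (0, 2, false, v) ∈ _ by simp [b])] at e
      have : g.w (0, 2, false, v) = 1 := by simp [G.w, G.U]
      rw [this, add_comm, add_left_inj] at e
      exact fun r => q (e.symm.trans r)
    · obtain ⟨u, rfl, rfl⟩ | ⟨j', v', hv, rfl, rfl, rfl⟩ | ⟨v, rfl, rfl, rfl⟩ := l'
      · cases j <;> grind
      · have := x_cases (g := g) j' v'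
        cases j' <;> grind
      · grind

structure Inv (g : G V) (X : Finset (C V)) (S : Finset V) (u : V) : Prop where
  z : g.z ∈ X
  solo : g.Solo g.z X
  u1 : u ∈ S ∧ u ∈ g.vs ∧ (0, 1, false, u) ∈ X ∧ (1, 2, false, u) ∈ X
  vis : ∀ v ∈ S, (0, 2, false, v) ∉ X ∧ (v ≠ u → (0, 1, false, v) ∉ X ∧ ∃ w ∈ S, w ∈ g.vs ∧ ∃ j, g.pr j w = some v)
  unv : ∀ v ∈ g.vs, v ∉ S → (0, 1, false, v) ∈ X ∧ (0, 2, false, v) ∈ X ∧ (0, 4, false, v) ∈ X ∧
    ∀ j, (0, 3, j, v) ∈ X ∧ (0, 5, j, v) ∈ X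
  res : g.ρ ∉ S ∧ (0, 1, true, g.ρ) ∈ X
  par : g.par X = if g.ty u then 1 else 0

theorem Inv.good (h : g.OK) {X : Finset (C V)} {S : Finset V} {u v : V} (i : Inv g X S u) (hv : v ∈ g.vs)
    (hS : v ∉ S) : ∃ j, g.x j v ∈ X ∧ g.x j v ≠ (0, 1, false, u) := by
  obtain q | q := h.two v hv
  · exact ⟨true, by simp [G.x, q, (i.unv v hv hS).2.2.2]⟩
  · obtain ⟨j, w, h1, h2, h3⟩ : ∃ j w, w ≠ u ∧ g.pr j v = some w ∧ ∀ v' ∈ g.vs, ∀ j', g.pr j' v' = some w → v' = v := by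
      obtain ⟨w, h1⟩ := q false
      obtain ⟨w', h2⟩ := q true
      have := h.ne v hv w h1.1
      by_cases e : w = u
      · exact ⟨true, w', by grind, h2⟩
      · exact ⟨false, w, e, h1⟩
    refine ⟨j, ?_⟩
    simp only [G.x, h2, Option.map_some, Option.getD_some]
    refine ⟨(i.unv w (h.pred v hv j w h2).1 fun e => ?_).1, by simpa⟩
    obtain ⟨-, y, q1, q2, j', q3⟩ := (i.vis w e).2 h1
    exact hS (h3 y q2 j' q3 ▸ q1)

theorem Inv.step (h : g.OK) {X : Finset (C V)} {S : Finset V} {u v : V} {j : Bool} (i : Inv g X S u) (hv : v ∈ g.vs)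
    (hS : v ∉ S) (e : g.pr j v = some u) :
    Inv g (X \ {(0, 1, false, u), (0, 2, false, v), (0, 3, j, v)}) (insert v S) v := by
  have l : g.NL (0, 1, false, u) (0, 2, false, v) (0, 3, j, v) := .inr (.inl ⟨j, v, hv, by simp [G.x, e], rfl, rfl⟩)
  obtain ⟨h1, h2, h3, h4⟩ := i.unv v hv hS
  have h5 := i.u1
  have h6 := h.none j
  have h7 := i.res
  refine ⟨mem_sdiff.2 ⟨i.z, NL_z l⟩, NL_solo l i.solo, ?_, fun w hw => ?_, fun w hw q => ?_, by grind, ?_⟩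
  · have := i.solo _ h2 (by simp [G.U]) (by simp [G.z])
    grind
  · obtain rfl | hw := mem_insert.1 hw
    · simp
    refine ⟨by simp [(i.vis w hw).1], fun _ => ?_⟩
    by_cases q : w = u
    · exact ⟨by simp [q], v, by simp, hv, j, q ▸ e⟩
    · obtain ⟨q1, y, q2, q3⟩ := (i.vis w hw).2 q
      exact ⟨by simp [q1], y, by simp [q2], q3⟩
  · rw [mem_insert, not_or] at q
    have := i.unv w hw q.2
    have : w ≠ u := by grind
    simp [*]
  · rw [NL_par h h5.2.2.1 h2 (h4 j).1 l, i.par]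
    have := (h.pred v hv j u e).2
    cases q : g.ty v <;> simp_all
    decide

theorem Inv.threat (h : g.OK) {X : Finset (C V)} {S : Finset V} {u : V} (i : Inv g X S u) (hu : g.ty u = false) :
    Win g.M (X \ {(0, 1, false, u), (1, 1, false, u), (2, 1, false, u)}) := by
  have U : g.U (0, 1, false, u) := by simp [G.U, hu]
  have l : g.NL (0, 1, false, u) (1, 1, false, u) (2, 1, false, u) := .inl ⟨U, rfl, rfl⟩
  have l' : g.NL (0, 5, false, g.ρ) (0, 2, false, g.ρ) (0, 3, false, g.ρ) :=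
    .inr (.inl ⟨false, _, h.mem, by simp [G.x, h.none], rfl, rfl⟩)
  obtain ⟨h1, h2, h3, h4⟩ := i.unv _ h.mem i.res.1
  have h5 := i.solo _ i.u1.2.2.1 U (by simp [G.z])
  have p := NL_par h i.u1.2.2.1 h5.1 h5.2 l
  set Y := X \ {(0, 1, false, u), (1, 1, false, u), (2, 1, false, u)} with hY
  have m1 : (0, 5, false, g.ρ) ∈ Y := by simp [hY, h4]
  have m2 : (0, 2, false, g.ρ) ∈ Y := by simp [hY, h2]
  have m3 : (0, 3, false, g.ρ) ∈ Y := by simp [hY, h4]
  have p' := NL_par h m1 m2 m3 l'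
  have s := NL_solo l' (NL_solo l i.solo)
  rw [wrec]
  refine ⟨_, ⟨_, m1, _, m2, _, m3, .inl l', rfl⟩, ?_⟩
  set Z := Y \ {(0, 5, false, g.ρ), (0, 2, false, g.ρ), (0, 3, false, g.ρ)} with hZ
  have p0 : g.par Z = 0 := by
    rw [p', p, i.par, hu]
    decide
  have hz : g.z ∈ Z := mem_sdiff.2 ⟨mem_sdiff.2 ⟨i.z, NL_z l⟩, NL_z l'⟩
  rw [wrec]
  rintro ⟨_, ⟨a, ha, b, hb, c, hc, l2 | ⟨j, v, hv, hj, rfl, rfl, rfl⟩, rfl⟩, q⟩ <;> refine q ?_
  · have h6 := i.solo _ h2 (by simp [G.U]) (by simp [G.z])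
    have h7 := i.res
    have h8 : g.ρ ≠ u := fun e => h7.1 (e ▸ i.u1.1)
    obtain ⟨j, hj⟩ : ∃ j, (0, 1, j, g.ρ) ∉ ({a, b, c} : Finset (C V)) := by
      obtain ⟨-, rfl, rfl⟩ | ⟨j', v', hv, rfl, rfl, rfl⟩ | ⟨v, rfl, rfl, rfl⟩ := l2
      · exact ⟨!a.2.2.1, by grind⟩
      · have := x_cases (g := g) j' v'
        exact ⟨true, by grind⟩
      · simp
    have n1 : g.z ∈ Z \ {a, b, c} := mem_sdiff.2 ⟨hz, NL_z l2⟩
    have n2 : (0, 1, j, g.ρ) ∈ Z \ {a, b, c} := mem_sdiff.2 ⟨by cases j <;> simp [hZ, hY, h1, h7, h8], hj⟩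
    have n3 : (j.toNat + 1, 2, false, g.ρ) ∈ Z \ {a, b, c} :=
      mem_sdiff.2 ⟨by cases j <;> simp [hZ, hY, h6], fun e => by simp [hZ, NL_role l2 _ _ (by omega) e] at ha⟩
    rw [wrec]
    refine ⟨_, ⟨_, n1, _, n2, _, n3, .inr ⟨j, _, h.mem, fun _ => rfl, rfl, rfl, rfl⟩, rfl⟩, ?_⟩
    rw [active h (NL_solo l2 s) n1 n2 n3 (by grind), NL_par h ha hb hc l2, p0, h.tyρ]
    decide
  · by_cases r : (0, 2, false, v) ∈ Z
    · have hS : v ∉ S := fun e => (i.vis v e).1 (by grind)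
      obtain ⟨j', h6, h7⟩ := i.good h hv hS
      have h8 := i.unv v hv hS
      have h9 : v ≠ g.ρ := fun e => by simp [hZ, e] at r
      refine dormant h (i := j') hv s r ?_ (by simp [hZ, hY, h8, h9]) (by simp [hZ, hY, h8])
      obtain ⟨-, e⟩ | ⟨w, -, e⟩ := x_cases (g := g) j' v <;> rw [e] at h6 h7 ⊢ <;> simp [hZ, hY, h6, h9]
      simpa using h7
    · have : v = g.ρ := by_contra fun e => by
        obtain rfl : j = false := by simpa [e] using hj
        by_cases hS : v ∈ S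
        · simp only [hZ, hY, mem_sdiff] at hb
          exact ((i.vis v hS).2 (by simpa using hb.1.2)).1 hb.1.1
        · simp [hZ, hY, i.unv v hv hS, e] at r
      rw [active h s hz hb hc r, p0, this, h.tyρ]
      decide

theorem Inv.win (h : g.OK) (X : Finset (C V)) : ∀ S u, Inv g X S u → (Win g.M X ↔ Win (GM g.vs g.pr) (S, u)) := by
  induction X using Finset.strongInduction with
  | _ X ih =>
  intro S u i
  have st : ∀ v ∈ g.vs, v ∉ S → ∀ j, g.pr j v = some u →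
      (Win g.M (X \ {(0, 1, false, u), (0, 2, false, v), (0, 3, j, v)}) ↔ Win (GM g.vs g.pr) (insert v S, v)) :=
    fun v hv hS j e => ih _ ⟨sdiff_subset, fun h => by simpa using h i.u1.2.2.1⟩ _ _ (i.step h hv hS e)
  rw [wrec, geo_rec]
  constructor
  · rintro ⟨_, ⟨a, ha, b, hb, c, hc, l | ⟨j, v, hv, hj, rfl, rfl, rfl⟩, rfl⟩, q⟩
    · by_cases e : (0, 1, false, u) ∈ ({a, b, c} : Finset (C V))
      · obtain ⟨U, rfl, rfl⟩ | ⟨j, v, hv, rfl, rfl, rfl⟩ | ⟨v, rfl, rfl, rfl⟩ := l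
        · obtain rfl : a = (0, 1, false, u) := by grind
          exact absurd (i.threat h (by simpa [G.U] using U)) q
        · have e' : g.pr j v = some u ∧ g.x j v = (0, 1, false, u) := by
            have := x_cases (g := g) j v
            grind
          have hS : v ∉ S := fun e => (i.vis v e).1 hb
          exact ⟨v, ⟨hv, j, e'.1⟩, hS, by rwa [← st v hv hS j e'.1, ← e'.2]⟩
        · simp at e
      · refine absurd ?_ q
        have h1 := (i.vis u i.u1.1).1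
        have n1 : g.z ∈ X \ {a, b, c} := mem_sdiff.2 ⟨i.z, NL_z l⟩
        have n2 : (0, 1, false, u) ∈ X \ {a, b, c} := mem_sdiff.2 ⟨i.u1.2.2.1, e⟩
        have n3 : (false.toNat + 1, 2, false, u) ∈ X \ {a, b, c} :=
          mem_sdiff.2 ⟨i.u1.2.2.2, fun e => by have := NL_role l _ _ (by omega) e; grind⟩
        rw [wrec]
        refine ⟨_, ⟨_, n1, _, n2, _, n3, .inr ⟨false, _, i.u1.2.1, by simp, rfl, rfl, rfl⟩, rfl⟩, ?_⟩
        rw [active h (NL_solo l i.solo) n1 n2 n3 (by grind), NL_par h ha hb hc l, i.par]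
        cases g.ty u <;> decide
    · refine absurd ?_ q
      by_cases hS : v ∈ S
      · obtain rfl : v = u := by
          have := i.vis v hS
          have := i.res
          cases j <;> grind
        rw [active h i.solo ha hb hc (i.vis v hS).1, i.par]
        cases g.ty v <;> decide
      · obtain ⟨j', h6, -⟩ := i.good h hv hS
        obtain ⟨-, h1, h2, h3⟩ := i.unv v hv hS
        exact dormant h hv i.solo h1 h6 (fun j => (h3 j).1) h2
  · rintro ⟨v, ⟨hv, j, e⟩, hS, q⟩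
    obtain ⟨-, h1, -, h3⟩ := i.unv v hv hS
    exact ⟨_, ⟨_, i.u1.2.2.1, _, h1, _, (h3 j).1, .inl (.inr (.inl ⟨j, v, hv, by simp [G.x, e], rfl, rfl⟩)), rfl⟩,
      by rwa [st v hv hS j e]⟩

end Pool.Agent.H.MP_cf31f8_lc
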