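import Pool.Agent.H.MP_cf31f8_lc.A

/-! Realising the triples of the game as the zero-sum triples of vectors modulo three. -/

namespace Pool.Agent.H.MP_cf31f8_lc

open Pool.Agent.Lib.CX Finset

variable {V : Type} [DecidableEq V] (g : G V)

def G.b0 (δ : C V → ℕ) (t : ℕ × Bool × V) : ℕ :=
  if t.1 = 1 ∧ t.2.1 = true then δ g.z + 2 * δ (0, 1, false, t.2.2) + δ (0, 2, false, t.2.2)
  else if t.1 = 3 then 2 * δ (g.x t.2.1 t.2.2) + 2 * δ (0, 2, false, t.2.2)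
  else if t.1 = 4 ∧ t.2.1 = false then δ (g.x false t.2.2) + δ (g.x true t.2.2) + 2 * δ (0, 2, false, t.2.2)
  else δ (0, t)
def G.b1 (δ : C V → ℕ) (t : ℕ × Bool × V) : ℕ :=
  if t.1 = 2 then 2 * δ g.z + 2 * δ (0, 1, false, t.2.2) else δ (1, t)
def G.φ (δ : C V → ℕ) (c : C V) : ℕ :=
  if c.1 = 0 then g.b0 δ c.2 else if c.1 = 1 then g.b1 δ c.2 else 2 * (g.b0 δ c.2 + g.b1 δ c.2)

def val (κ c : C V) : ℕ :=
  if κ.1 = 3 then (if (c.2.1 = 2 ↔ κ.2.2.1 = true) ∧ c.2.1 ≠ 0 then 1 else 0) else if c = κ then 1 else 0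

def G.co : List (C V) := List.range 4 ×ˢ List.range 6 ×ˢ [false, true] ×ˢ g.vs

def G.ok (c : C V) : Prop :=
  (c.2.1 = 0 ∧ c.2.2.1 = false ∧ c.2.2.2 = g.ρ ∨ c.2.1 = 1 ∧ (c.2.2.1 = false ∨ c.2.2.2 = g.ρ) ∨
    c.2.1 = 2 ∧ c.2.2.1 = false ∨ c.2.1 = 3 ∨ c.2.1 = 4 ∧ (c.2.2.1 = false ∨ g.ty c.2.2.2 = false) ∨ c.2.1 = 5) ∧
  (c.1 = 0 ∨ (c.1 = 1 ∨ c.1 = 2) ∧ g.U (0, c.2))
instance : DecidablePred g.ok := fun c => by unfold G.ok; infer_instance

def G.Z3 (a b c : C V) : Prop := ∀ κ ∈ g.co, (g.φ (val κ) a + g.φ (val κ) b + g.φ (val κ) c) % 3 = 0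
def G.Res (a b c : C V) : Prop :=
  a = b ∧ b = c ∨ ∃ x y w, (g.NL x y w ∨ g.ZL x y w) ∧ [a, b, c].Perm [x, y, w]

def G.Sh : Fin 7 → C V → Prop
  | 0, c => c = g.z
  | 1, c => ∃ k j, ∃ v ∈ g.vs, c = (0, k, j, v) ∧ (k = 1 ∧ j = false ∨ k = 4 ∧ j = true ∨ k = 5)
  | 2, c => ∃ v ∈ g.vs, c = (0, 2, false, v)
  | 3, c => ∃ v ∈ g.vs, c = (1, 2, false, v)
  | 4, c => ∃ v ∈ g.vs, c = (2, 2, false, v)
  | 5, c => ∃ v ∈ g.vs, c = (0, 3, false, v) ∨ c = (0, 3, true, v) ∨ c = (0, 4, false, v)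
  | 6, c => c = (0, 1, true, g.ρ)

def sg : Fin 7 → ℕ × ℕ × ℕ := ![(1, 0, 0), (0, 1, 0), (0, 0, 1), (2, 2, 0), (4, 4, 2), (0, 2, 2), (1, 2, 1)]
def Pt (i j k : Fin 7) : Prop := (i, j, k) ∈ [(0, 1, 3), (0, 6, 4), (2, 3, 4), (1, 2, 5), (3, 5, 6)]
instance (i j k) : Decidable (Pt i j k) := by unfold Pt; infer_instance

theorem pat : ∀ i j k : Fin 7, ((sg i).1 + (sg j).1 + (sg k).1) % 3 = 0 → ((sg i).2.1 + (sg j).2.1 + (sg k).2.1) % 3 = 0 →
    ((sg i).2.2 + (sg j).2.2 + (sg k).2.2) % 3 = 0 →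
    i = j ∧ j = k ∨ Pt i j k ∨ Pt i k j ∨ Pt j i k ∨ Pt j k i ∨ Pt k i j ∨ Pt k j i := by decide +kernel

variable {g}

theorem mem_co (r k : ℕ) (j : Bool) (v : V) : (r, k, j, v) ∈ g.co ↔ r < 4 ∧ k < 6 ∧ v ∈ g.vs := by
  cases j <;> simp [G.co]

theorem line_z3 {a b c : C V} (l : g.NL a b c ∨ g.ZL a b c) (δ) : (g.φ δ a + g.φ δ b + g.φ δ c) % 3 = 0 := by
  obtain (⟨u, rfl, rfl⟩ | ⟨j, v, hv, rfl, rfl, rfl⟩ | ⟨v, rfl, rfl, rfl⟩) | ⟨j, v, hv, hj, rfl, rfl, rfl⟩ := l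
  · simp [G.φ, u.1]
    omega
  · obtain ⟨-, e⟩ | ⟨w, -, e⟩ := x_cases (g := g) j v <;> simp [G.φ, G.b0, e] <;> omega
  · simp [G.φ, G.b0]
    omega
  · cases j <;> simp [G.φ, G.b0, G.b1, G.z] <;> omega

theorem line_ne {a b c : C V} (l : g.NL a b c ∨ g.ZL a b c) : [a, b, c].Nodup := by
  obtain (⟨u, rfl, rfl⟩ | ⟨j, v, hv, rfl, rfl, rfl⟩ | ⟨v, rfl, rfl, rfl⟩) | ⟨j, v, hv, hj, rfl, rfl, rfl⟩ := l
  · simp [Prod.ext_iff, u.1]
  · obtain ⟨-, e⟩ | ⟨w, -, e⟩ := x_cases (g := g) j v <;> simp [e]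
  · simp
  · simp [G.z]

theorem G.Z3.s1 {a b c : C V} (h : g.Z3 a b c) : g.Z3 b a c := fun κ k => by have := h κ k; omega
theorem G.Z3.s2 {a b c : C V} (h : g.Z3 a b c) : g.Z3 a c b := fun κ k => by have := h κ k; omega
theorem G.Res.s1 {a b c : C V} (h : g.Res a b c) : g.Res b a c :=
  h.imp (by grind) fun ⟨x, y, w, l, p⟩ => ⟨x, y, w, l, (List.Perm.swap ..).trans p⟩
theorem G.Res.s2 {a b c : C V} (h : g.Res a b c) : g.Res a c b :=
  h.imp (by grind) fun ⟨x, y, w, l, p⟩ => ⟨x, y, w, l, ((List.Perm.swap ..).cons _).trans p⟩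

theorem sh_sg {k : Fin 7} {c : C V} (h : g.Sh k c) : g.φ (val g.z) c = (sg k).1 ∧
    g.φ (val (3, 0, false, g.ρ)) c = (sg k).2.1 ∧ g.φ (val (3, 0, true, g.ρ)) c = (sg k).2.2 := by
  fin_cases k
  on_goal 2 => obtain ⟨k, j, v, -, rfl, ⟨rfl, rfl⟩ | ⟨rfl, rfl⟩ | rfl⟩ := h
  on_goal 5 => obtain ⟨v, -, rfl⟩ := h
  on_goal 6 => obtain ⟨v, -, rfl⟩ := h
  on_goal 7 => obtain ⟨v, -, rfl⟩ := h
  on_goal 8 =>
    obtain ⟨v, -, h⟩ := h
    obtain ⟨-, e⟩ | ⟨w, -, e⟩ := x_cases (g := g) false v <;> obtain ⟨-, e'⟩ | ⟨w, -, e'⟩ := x_cases (g := g) true v <;>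
      obtain rfl | rfl | rfl := h <;> simp [G.φ, G.b0, G.z, val, sg, e, e']
  all_goals (try obtain rfl := h); simp [G.φ, G.b0, G.b1, G.z, val, sg]

theorem x_co (h : g.OK) {v : V} (hv : v ∈ g.vs) (j : Bool) : g.x j v ∈ g.co ∧ (g.x j v).1 = 0 ∧
    ((g.x j v).2.1 = 1 ∧ (g.x j v).2.2.1 = false ∨ (g.x j v).2.1 = 5) ∧ g.x false v ≠ g.x true v := by
  have := h.pred v hv j
  have := h.ne v hv
  have := x_cases (g := g) false v
  have := x_cases (g := g) true v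
  cases j <;> grind [mem_co]

theorem ord (h : g.OK) {i j k : Fin 7} {a b c : C V} (ha : g.Sh i a) (hb : g.Sh j b) (hc : g.Sh k c) (z : g.Z3 a b c)
    (p : Pt i j k) : g.Res a b c := by
  simp only [Pt, List.mem_cons, Prod.mk.injEq, List.not_mem_nil, or_false] at p
  refine .inr ⟨a, b, c, ?_, .refl _⟩
  obtain ⟨rfl, rfl, rfl⟩ | ⟨rfl, rfl, rfl⟩ | ⟨rfl, rfl, rfl⟩ | ⟨rfl, rfl, rfl⟩ | ⟨rfl, rfl, rfl⟩ := p
  · obtain ⟨w, hw, rfl⟩ := hc
    obtain ⟨k, j, v, -, rfl, q⟩ := hb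
    obtain rfl := ha
    have := z (0, 1, false, w) (by simp [mem_co, hw])
    refine .inr ⟨false, w, hw, by simp, rfl, by_contra fun e => ?_, rfl⟩
    obtain ⟨rfl, rfl⟩ | ⟨rfl, rfl⟩ | rfl := q <;> simp_all [G.φ, G.b0, G.b1, G.z, val]
  · obtain ⟨w, hw, rfl⟩ := hc
    obtain rfl := ha
    obtain rfl := hb
    have := z (0, 2, false, g.ρ) (by simp [mem_co, h.mem])
    refine .inr ⟨true, _, h.mem, by simp, rfl, rfl, by_contra fun e => ?_⟩
    simp_all [G.φ, G.b0, G.b1, G.z, val]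
  · obtain ⟨u, hu, rfl⟩ := ha
    obtain ⟨v, hv, rfl⟩ := hb
    obtain ⟨w, hw, rfl⟩ := hc
    have h1 := z (0, 2, false, u) (by simp [mem_co, hu])
    have h2 := z (0, 1, false, v) (by simp [mem_co, hv])
    obtain rfl : w = u := by_contra fun e => by simp [G.φ, G.b0, G.b1, G.z, val, e] at h1
    obtain rfl : w = v := by_contra fun e => by simp [G.φ, G.b0, G.b1, G.z, val, e] at h2
    exact .inl (.inl ⟨by simp [G.U], rfl, rfl⟩)
  · obtain ⟨v, hv, rfl⟩ := hb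
    obtain ⟨w, hw, q⟩ := hc
    obtain ⟨k, j, u, hu, rfl, q'⟩ := ha
    have h1 := z (0, 2, false, v) (by simp [mem_co, hv])
    have h2 := z (0, k, j, u) (by simp [mem_co, hu]; omega)
    have h3 := x_co h hw false
    have h4 := x_co h hw true
    have h5 := z _ h3.1
    have h6 := z _ h4.1
    have e : g.φ = fun δ c => if c = (0, k, j, u) then δ c else g.φ δ c := by
      funext δ c
      split_ifs with e
      · obtain ⟨rfl, rfl⟩ | ⟨rfl, rfl⟩ | rfl := q' <;> simp [G.φ, G.b0, e]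
      · rfl
    rw [e] at h1 h2 h5 h6
    left; right; left
    obtain rfl | rfl | rfl := q <;> simp only [G.φ, G.b0, val] at h1 h2 h5 h6 <;> grind
  · obtain ⟨v, hv, rfl⟩ := ha
    obtain ⟨w, hw, q⟩ := hb
    obtain rfl := hc
    have h1 := z (0, 2, false, g.ρ) (by simp [mem_co, h.mem])
    have h2 := z (0, 5, false, g.ρ) (by simp [mem_co, h.mem])
    have h3 := z (0, 5, true, g.ρ) (by simp [mem_co, h.mem])
    have h4 := x_co h hw false
    have h5 := x_co h hw true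
    obtain rfl : w = g.ρ := by_contra fun e => by
      obtain rfl | rfl | rfl := q <;> simp only [G.φ, G.b0, G.b1, G.z, val] at h1 <;> grind
    obtain rfl | rfl | rfl := q <;> simp [G.φ, G.b0, G.b1, G.z, val, G.x, h.none] at h2 h3

theorem same (h : g.OK) {k : Fin 7} {a b c : C V} (ha : g.Sh k a) (hb : g.Sh k b) (hc : g.Sh k c) (z : g.Z3 a b c) :
    g.Res a b c := by
  fin_cases k
  · exact .inl ⟨ha.trans hb.symm, hb.trans hc.symm⟩
  · have f : ∀ c, g.Sh 1 c → c ∈ g.co ∧ c.1 = 0 ∧ ∀ δ, g.φ δ c = δ c := by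
      rintro _ ⟨k, j, v, hv, rfl, ⟨rfl, rfl⟩ | ⟨rfl, rfl⟩ | rfl⟩ <;> simp [G.φ, G.b0, mem_co, hv]
    have := z a (f a ha).1
    simp only [(f a ha).2.2, (f b hb).2.2, (f c hc).2.2, val, (f a ha).2.1] at this
    left
    grind
  on_goal 5 => exact .inl ⟨ha.trans hb.symm, hb.trans hc.symm⟩
  all_goals
    obtain ⟨u, hu, ha⟩ := ha
    obtain ⟨v, hv, hb⟩ := hb
    obtain ⟨w, hw, hc⟩ := hc
    have h1 := z (0, 2, false, u) (by simp [mem_co, hu])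
    have h2 := z (0, 1, false, u) (by simp [mem_co, hu])
  on_goal 4 =>
    have f : ∀ v ∈ g.vs, ∀ c, c = (0, 3, false, v) ∨ c = (0, 3, true, v) ∨ c = (0, 4, false, v) →
        g.φ (val (0, 2, false, u)) c = if v = u then 2 else 0 := fun v hv c q => by
      have h4 := x_co h hv false
      have h5 := x_co h hv true
      obtain rfl | rfl | rfl := q <;> simp only [G.φ, G.b0, val] <;> grind
    rw [f u hu a ha, f v hv b hb, f w hw c hc] at h1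
    obtain ⟨rfl, rfl⟩ : u = v ∧ u = w := by grind
    have h4 := x_co h hu false
    have h5 := x_co h hu true
    have h3 := z _ h4.1
    have e : g.φ (val (g.x false u)) (0, 3, false, u) = 2 ∧ g.φ (val (g.x false u)) (0, 3, true, u) = 0 ∧
        g.φ (val (g.x false u)) (0, 4, false, u) = 1 := by
      simp only [G.φ, G.b0, val]
      grind
    have l : g.Res (0, 3, false, u) (0, 3, true, u) (0, 4, false, u) :=
      .inr ⟨_, _, _, .inl (.inr (.inr ⟨u, rfl, rfl, rfl⟩)), .refl _⟩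
    obtain rfl | rfl | rfl := ha <;> obtain rfl | rfl | rfl := hb <;> obtain rfl | rfl | rfl := hc <;>
      first | exact .inl ⟨rfl, rfl⟩ | exact l | exact l.s1 | exact l.s2 | exact l.s1.s2 | exact l.s2.s1 | exact l.s1.s2.s1 |
        simp [e] at h3
  all_goals
    subst ha hb hc
    left
    simp only [G.φ, G.b0, G.b1, G.z, val] at h1 h2
    grind

theorem core (h : g.OK) {a b c : C V} (ha : ∃ k, g.Sh k a) (hb : ∃ k, g.Sh k b) (hc : ∃ k, g.Sh k c) (z : g.Z3 a b c) :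
    g.Res a b c := by
  obtain ⟨i, ha⟩ := ha
  obtain ⟨j, hb⟩ := hb
  obtain ⟨k, hc⟩ := hc
  have h1 := z g.z (by simp [G.z, mem_co, h.mem])
  have h2 := z (3, 0, false, g.ρ) (by simp [mem_co, h.mem])
  have h3 := z (3, 0, true, g.ρ) (by simp [mem_co, h.mem])
  simp only [sh_sg ha, sh_sg hb, sh_sg hc] at h1 h2 h3
  obtain ⟨rfl, rfl⟩ | p | p | p | p | p | p := pat i j k h1 h2 h3
  exacts [same h ha hb hc z, ord h ha hb hc z p, (ord h ha hc hb z.s2 p).s2, (ord h hb ha hc z.s1 p).s1,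
    (ord h hb hc ha z.s1.s2 p).s2.s1, (ord h hc ha hb z.s2.s1 p).s1.s2, (ord h hc hb ha z.s1.s2.s1 p).s1.s2.s1]

theorem G.Res.eq {a b : C V} (h : g.Res a a b) : a = b := by
  obtain ⟨-, e⟩ | ⟨x, y, w, l, p⟩ := h
  · exact e
  · simpa using p.nodup_iff.2 (line_ne l)

theorem shape {c : C V} (h1 : c ∈ g.co) (h2 : g.ok c) : (∃ k, g.Sh k c) ∨
    (c.1 = 1 ∨ c.1 = 2) ∧ c.2.1 ≠ 2 ∧ g.U (0, c.2) ∧ (1, c.2) ∈ g.co ∧ ∃ k, g.Sh k (0, c.2) := by
  obtain ⟨r, k, j, v⟩ := c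
  rw [mem_co] at h1
  have hv := h1.2.2
  have s : ∃ k', g.Sh k' (0, k, j, v) := by
    obtain ⟨rfl, rfl, rfl⟩ | ⟨rfl, q⟩ | ⟨rfl, rfl⟩ | rfl | ⟨rfl, -⟩ | rfl := h2.1
    · exact ⟨0, rfl⟩
    · cases j
      · exact ⟨1, _, _, _, hv, rfl, by simp⟩
      · exact ⟨6, by simpa [G.Sh] using q⟩
    · exact ⟨2, v, hv, rfl⟩
    · exact ⟨5, v, hv, by cases j <;> simp⟩
    · cases j
      · exact ⟨5, v, hv, by simp⟩
      · exact ⟨1, _, _, _, hv, rfl, by simp⟩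
    · exact ⟨1, _, _, _, hv, rfl, by simp⟩
  obtain rfl | ⟨q, U⟩ := h2.2
  · exact .inl s
  by_cases e : k = 2
  · obtain rfl : j = false := by grind [G.ok]
    obtain rfl | rfl := q
    exacts [.inl ⟨3, v, hv, by rw [e]⟩, .inl ⟨4, v, hv, by rw [e]⟩]
  · exact .inr ⟨q, e, U, by simp [mem_co, h1], s⟩

theorem at_P {t : ℕ × Bool × V} (ht : t.1 ≠ 2) {c : C V} (hc : g.ok c) :
    g.φ (val (1, t)) c = if c = (1, t) then 1 else if c = (2, t) then 2 else 0 := by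
  have := hc.2
  have := x_cases (g := g) false c.2.2.2
  have := x_cases (g := g) true c.2.2.2
  have := x_cases (g := g) c.2.2.1 c.2.2.2
  have e : g.b0 (val (1, t)) c.2 = 0 := by
    simp only [G.b0, G.z, val]
    grind
  have e' : g.b1 (val (1, t)) c.2 = if c.2 = t then 1 else 0 := by
    by_cases q : c.2.1 = 2
    · simp [G.b1, G.z, val, q, show c.2 ≠ t from fun e => ht (e ▸ q)]
    · simp [G.b1, val, q]
  obtain ⟨r, u⟩ := c
  obtain rfl | ⟨rfl | rfl, -⟩ := hc.2 <;> simp [G.φ, e, e']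

theorem main (h : g.OK) {a b c : C V} (ha : a ∈ g.co ∧ g.ok a) (hb : b ∈ g.co ∧ g.ok b) (hc : c ∈ g.co ∧ g.ok c)
    (z : g.Z3 a b c) : g.Res a b c := by
  have k1 : ∀ t c, t.1 ≠ 2 → g.U (0, t) → (∃ k, g.Sh k (0, t)) → c ∈ g.co ∧ g.ok c → c ≠ (1, t) → c ≠ (2, t) →
      g.Z3 c (1, t) (2, t) → g.Res c (1, t) (2, t) := fun t c h1 h2 h3 hc n1 n2 z => by
    have l : g.NL (0, t) (1, t) (2, t) ∨ g.ZL (0, t) (1, t) (2, t) := .inl (.inl ⟨h2, rfl, rfl⟩)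
    have z' : g.Z3 c c (0, t) := fun κ k => by
      have := z κ k
      have := line_z3 l (val κ)
      omega
    obtain s | ⟨q1, q2, -, q3, -⟩ := shape hc.1 hc.2
    · exact .inr ⟨_, _, _, l, by rw [(core h s s h3 z').eq]⟩
    · have := z' _ q3
      have e : g.φ (val (1, c.2)) (0, t) = 0 := by
        have := x_cases (g := g) false t.2.2
        have := x_cases (g := g) true t.2.2
        have := x_cases (g := g) t.2.1 t.2.2
        simp only [G.φ, G.b0, G.z, val]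
        grind
      rw [at_P q2 hc.2, e] at this
      grind
  have k2 : ∀ a b c, a ∈ g.co ∧ g.ok a → b ∈ g.co ∧ g.ok b → c ∈ g.co ∧ g.ok c → g.Z3 a b c →
      (¬∃ k, g.Sh k a) → g.Res a b c := fun a b c ha hb hc z n => by
    obtain ⟨q1, q2, q3, q4, q5⟩ := (shape ha.1 ha.2).resolve_left n
    have := z _ q4
    rw [at_P q2 ha.2, at_P q2 hb.2, at_P q2 hc.2] at this
    obtain ⟨r, t⟩ := a
    have k := k1 t
    obtain rfl | rfl := q1
    · by_cases e : b = (2, t)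
      · subst e
        exact (k c q2 q3 q5 hc (by grind) (by grind) z.s2.s1).s1.s2
      by_cases e : c = (2, t)
      · subst e
        exact (k b q2 q3 q5 hb (by grind) (by grind) z.s1).s1
      · exact .inl (by grind)
    · by_cases e : b = (1, t)
      · by_cases e' : c = (1, t)
        · grind
        subst e
        exact (k c q2 q3 q5 hc (by grind) (by grind) z.s1.s2.s1).s1.s2.s1
      by_cases e : c = (1, t)
      · subst e
        exact (k b q2 q3 q5 hb (by grind) (by grind) z.s1.s2).s2.s1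
      · exact .inl (by grind)
  by_cases h1 : ∃ k, g.Sh k a
  · by_cases h2 : ∃ k, g.Sh k b
    · by_cases h3 : ∃ k, g.Sh k c
      exacts [core h h1 h2 h3 z, (k2 c a b hc ha hb z.s2.s1 h3).s1.s2]
    · exact (k2 b a c hb ha hc z.s1 h2).s1
  · exact k2 a b c ha hb hc z h1

end Pool.Agent.H.MP_cf31f8_lc
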