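import Pool.Agent.H.MP_cf31f8_lc.B
import Pool.Agent.Lib.helper4.CXPspM

/-! The two-player game of SET is PSPACE-complete. -/

namespace Pool.Agent.H.MP_cf31f8_lc

open Pool.Agent.Lib.CX Finset

def IsSet (n : ℕ) (a b c : List ℕ) : Prop :=
  a ≠ b ∧ a ≠ c ∧ b ≠ c ∧ ∀ i < n, (a.getD i 0 = b.getD i 0 ∧ b.getD i 0 = c.getD i 0) ∨
    (a.getD i 0 ≠ b.getD i 0 ∧ a.getD i 0 ≠ c.getD i 0 ∧ b.getD i 0 ≠ c.getD i 0)

def Move (n : ℕ) (T T' : Finset (List ℕ)) : Prop :=
  ∃ a ∈ T, ∃ b ∈ T, ∃ c ∈ T, IsSet n a b c ∧ T' = T \ {a, b, c}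

def Valid (x : ℕ × List (List ℕ)) : Prop :=
  1 ≤ x.1 ∧ x.2.Nodup ∧ ∀ a ∈ x.2, a.length = x.1 ∧ ∀ e ∈ a, e < 3

instance (n a b c) : Decidable (IsSet n a b c) := by unfold IsSet; infer_instance

theorem psp : InPSPACE fun x : {x // Valid x} => Win (Move x.1.1) x.1.2.toFinset := by
  refine InPSPACE.of_game (α := {x // Valid x}) (σ := List (List ℕ)) (fun _ s => ((s ×ˢ s ×ˢ s).filter fun t =>
      decide (IsSet t.1.length t.1 t.2.1 t.2.2)).map fun t => s.filter fun c => decide (c ∉ [t.1, t.2.1, t.2.2]))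
    (fun x => x.1.2) (fun x => x.1.2.length ^ 3 * (size x.1.2 + 1) + 2 + x.1.2.length) (fun x s => s.Sublist x.1.2)
    (fun x s => Win (Move x.1.1) s.toFinset) (fun _ s => s.length) (by unfold IsSet; fun_prop) (by fun_prop)
    (by fun_prop) (fun x => ⟨.refl _, by omega⟩) fun x s hs => ⟨?_, ?_, ?_⟩
  · refine (size_list_le (B := size x.1.2) fun y hy => ?_).trans ?_
    · obtain ⟨t, -, rfl⟩ := List.mem_map.1 hy
      exact size_sublist (List.filter_sublist.trans hs)
    · have := List.length_filter_le (fun t => decide (IsSet t.1.length t.1 t.2.1 t.2.2)) (s ×ˢ s ×ˢ s)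
      rw [List.length_product, List.length_product, ← pow_three] at this
      have := Nat.mul_le_mul_right (size x.1.2 + 1) (this.trans (Nat.pow_le_pow_left hs.length_le 3))
      rw [List.length_map]
      omega
  · intro y hy
    obtain ⟨⟨a, b, c⟩, ht, rfl⟩ := List.mem_map.1 hy
    refine ⟨List.filter_sublist.trans hs, List.length_filter_lt_length_iff_exists.2 ⟨a, ?_, by simp⟩⟩
    simp only [List.mem_filter, List.mem_product] at ht
    exact ht.1.1
  · have e : ∀ a b c : List ℕ, (s.filter fun y => decide (y ∉ [a, b, c])).toFinset = s.toFinset \ {a, b, c} :=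
      fun a b c => by ext; simp
    have n : ∀ a ∈ s, a.length = x.1.1 := fun a ha => (x.2.2.2 a (hs.subset ha)).1
    rw [win_rec card fun X Y ⟨a, ha, b, _, c, _, _, e⟩ =>
      e ▸ card_lt_card ⟨sdiff_subset, fun h => by simpa using h ha⟩]
    constructor
    · rintro ⟨_, ⟨a, ha, b, hb, c, hc, l, rfl⟩, q⟩
      rw [List.mem_toFinset] at ha hb hc
      exact ⟨_, List.mem_map.2 ⟨(a, b, c), by simp [*], rfl⟩, by rwa [e]⟩
    · rintro ⟨_, hy, q⟩
      obtain ⟨⟨a, b, c⟩, ht, rfl⟩ := List.mem_map.1 hy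
      simp only [List.mem_filter, List.mem_product, decide_eq_true_eq] at ht
      exact ⟨_, ⟨a, by simp [ht], b, by simp [ht], c, by simp [ht], n a ht.1.1 ▸ ht.2, rfl⟩, by rwa [← e]⟩

section
variable {V : Type} [DecidableEq V] (g : G V) (s : V)

def G.cards : List (C V) := g.co.filter fun c => decide (g.ok c ∧ c ≠ (0, 2, false, s))
def G.vec (c : C V) : List ℕ := g.co.map fun κ => g.φ (val κ) c % 3
def G.inst : ℕ × List (List ℕ) := (g.co.length, (g.cards s).map g.vec)

variable {g s}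

theorem mem_cards (c : C V) : c ∈ g.cards s ↔ (c ∈ g.co ∧ g.ok c) ∧ c ≠ (0, 2, false, s) := by
  simp [G.cards, and_assoc]

theorem vec_inj (h : g.OK) {a b : C V} (ha : a ∈ g.cards s) (hb : b ∈ g.cards s) (e : g.vec a = g.vec b) : a = b := by
  rw [mem_cards] at ha hb
  refine (main h ha.1 ha.1 hb.1 fun κ k => ?_).eq
  have := List.map_inj_left.1 e κ k
  omega

theorem nodup_co (hn : g.vs.Nodup) : g.co.Nodup := List.nodup_range.product (List.nodup_range.product (.product (by simp) hn))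

theorem valid (h : g.OK) (hn : g.vs.Nodup) : Valid (g.inst s) := by
  refine ⟨List.length_pos_of_mem (a := g.z) (by simp [G.z, mem_co, h.mem]),
    ((nodup_co hn).filter _).map_on fun a ha b hb => vec_inj h ha hb, fun a ha => ?_⟩
  obtain ⟨c, -, rfl⟩ := List.mem_map.1 ha
  exact ⟨by simp [G.vec, G.inst], List.forall_mem_map.2 fun _ _ => Nat.mod_lt _ (by omega)⟩

set_option synthInstance.maxSize 4000 in
theorem isSet_iff (a b c : C V) : IsSet g.co.length (g.vec a) (g.vec b) (g.vec c) ↔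
    g.vec a ≠ g.vec b ∧ g.vec a ≠ g.vec c ∧ g.vec b ≠ g.vec c ∧ g.Z3 a b c := by
  have t : ∀ x y z : ℕ, (x % 3 = y % 3 ∧ y % 3 = z % 3 ∨ x % 3 ≠ y % 3 ∧ x % 3 ≠ z % 3 ∧ y % 3 ≠ z % 3) ↔
      (x + y + z) % 3 = 0 := fun x y z => by
    rw [show (x + y + z) % 3 = (x % 3 + y % 3 + z % 3) % 3 by omega]
    exact (by decide : ∀ a < 3, ∀ b < 3, ∀ c < 3, ((a = b ∧ b = c ∨ a ≠ b ∧ a ≠ c ∧ b ≠ c) ↔ (a + b + c) % 3 = (0 : ℕ)))
      _ (by omega) _ (by omega) _ (by omega)
  have e : ∀ c i (hi : i < g.co.length), (g.vec c).getD i 0 = g.φ (val g.co[i]) c % 3 := fun c i hi => by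
    simp [G.vec, hi]
  refine and_congr_right' (and_congr_right' (and_congr_right' ?_))
  rw [G.Z3, List.forall_mem_iff_getElem]
  exact forall₂_congr fun i hi => by rw [e a i hi, e b i hi, e c i hi, t]

theorem sim (h : g.OK) : Win g.M (g.cards s).toFinset ↔ Win (Move (g.inst s).1) (g.inst s).2.toFinset := by
  have im : ∀ X : Finset (C V), X ⊆ (g.cards s).toFinset → ∀ a ∈ X, ∀ b ∈ X, ∀ c ∈ X,
      X.image g.vec \ {g.vec a, g.vec b, g.vec c} = (X \ {a, b, c}).image g.vec := fun X hX a ha b hb c hc => by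
    rw [image_sdiff_of_injOn (fun x hx y hy => vec_inj h (by simpa using hX hx) (by simpa using hX hy))
      (by simp [insert_subset_iff, *])]
    simp
  refine (win_iff (R := fun X Y => X ⊆ (g.cards s).toFinset ∧ Y = X.image g.vec) ?_ ?_
    ⟨le_rfl, by ext; simp [G.inst]⟩).1
  · rintro X _ ⟨hX, rfl⟩ _ ⟨a, ha, b, hb, c, hc, l, rfl⟩
    have n := line_ne l
    have i : ∀ x ∈ X, ∀ y ∈ X, x ≠ y → g.vec x ≠ g.vec y := fun x hx y hy e q =>
      e (vec_inj h (by simpa using hX hx) (by simpa using hX hy) q)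
    refine ⟨_, ⟨_, mem_image_of_mem _ ha, _, mem_image_of_mem _ hb, _, mem_image_of_mem _ hc,
      (isSet_iff a b c).2 ⟨i a ha b hb (by grind), i a ha c hc (by grind), i b hb c hc (by grind),
        fun κ _ => line_z3 l _⟩, rfl⟩, sdiff_subset.trans hX, im X hX a ha b hb c hc⟩
  · rintro X _ ⟨hX, rfl⟩ _ ⟨_, h1, _, h2, _, h3, l, rfl⟩
    obtain ⟨a, ha, rfl⟩ := mem_image.1 h1
    obtain ⟨b, hb, rfl⟩ := mem_image.1 h2
    obtain ⟨c, hc, rfl⟩ := mem_image.1 h3
    obtain ⟨n, -, -, z⟩ := (isSet_iff a b c).1 l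
    have m : ∀ x ∈ X, x ∈ g.co ∧ g.ok x := fun x hx => ((mem_cards x).1 (by simpa using hX hx)).1
    obtain ⟨rfl, -⟩ | ⟨x, y, w, l, p⟩ := main h (m a ha) (m b hb) (m c hc) z
    · exact absurd rfl n
    have p := fun t => p.mem_iff (a := t)
    simp only [List.mem_cons, List.not_mem_nil, or_false] at p
    have e : ({x, y, w} : Finset (C V)) = {a, b, c} := by ext; simp [p]
    have k : ∀ t ∈ ({x, y, w} : Finset (C V)), t ∈ X := by simp [e, ha, hb, hc]
    exact ⟨_, ⟨x, k x (by simp), y, k y (by simp), w, k w (by simp), l, rfl⟩, sdiff_subset.trans hX,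
      e ▸ im X hX a ha b hb c hc⟩

theorem init (h : g.OK) (hs : s ∈ g.vs) (hρ : s ≠ g.ρ) (ht : g.ty s = false) : Inv g (g.cards s).toFinset {s} s := by
  have hm := h.mem
  refine ⟨by simp [mem_cards, mem_co, G.ok, G.z, hm], fun ⟨r, k, j, v⟩ hu U _ => ?_,
    by simp [mem_cards, mem_co, G.ok, G.U, hs], by simp [mem_cards], fun v hv q => ?_,
    by simp [mem_cards, mem_co, G.ok, hm, hρ.symm], ?_⟩
  · obtain rfl : r = 0 := U.1
    simp only [List.mem_toFinset, mem_cards, mem_co, G.ok] at hu ⊢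
    simp [hu, U]
  · rw [mem_singleton] at q
    simp [mem_cards, mem_co, G.ok, hv, q]
  · have e : (g.cards s).toFinset = (range 4 ×ˢ range 6 ×ˢ univ ×ˢ g.vs.toFinset).filter
        fun c => g.ok c ∧ c ≠ (0, 2, false, s) := by
      ext ⟨r, k, j, v⟩
      simp [mem_cards, mem_co, and_assoc]
    have f : ∀ v, ∑ r ∈ range 4, ∑ k ∈ range 6, ∑ j, (if g.ok (r, k, j, v) ∧ (r, k, j, v) ≠ (0, 2, false, s) then
        g.w (r, k, j, v) else 0) = (if v = g.ρ then 1 else 0) + if v = s then 1 else 0 := fun v => by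
      have := h.tyρ
      by_cases h1 : v = g.ρ <;> by_cases h2 : v = s <;> cases h3 : g.ty v <;>
        simp_all [sum_range_succ, G.ok, G.w, G.U] <;> decide
    rw [G.par, e, sum_filter]
    simp only [sum_product, sum_comm (t := g.vs.toFinset), f]
    simp [sum_add_distrib, hm, hs, ht]
    decide

end

def mk (a : QI) : G GeoV := ⟨(0, 0, true, 0) :: gvs a, gpr a, gty, (0, 0, true, 0)⟩

theorem mk_ok (a : QI) : (mk a).OK := by
  have n : ∀ j, gpr a j (0, 0, true, 0) = none := by simp [gpr]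
  have m : ∀ v ∈ (mk a).vs, ∀ j w, gpr a j v = some w → v ∈ gvs a := fun v hv j w e =>
    (List.mem_cons.1 hv).resolve_left fun q => by simp [q, n] at e
  refine ⟨by simp [mk], n, rfl, fun v hv j w e => ?_, fun v hv w e e' => ?_, fun v hv => ?_⟩
  · have := gpr_spec a (m v hv j w e) e
    exact ⟨List.mem_cons_of_mem _ this.1, this.2.1⟩
  · simpa using (gpr_spec a (m v hv _ w e) e).2.2.symm.trans (gpr_spec a (m v hv _ w e) e').2.2
  · obtain rfl | q := List.mem_cons.1 hv
    · exact .inl (n true)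
    · exact (gpr_two a q).imp_right fun r j => let ⟨w, h1, h2⟩ := r j
        ⟨w, h1, fun v' hv' j' e => h2 v' (m v' hv' j' w e) j' e⟩

section
variable {α : Type} [Enc α] {a : α → QI} {v : α → GeoV} {j : α → Bool} {κ c : α → C GeoV} {t : α → ℕ × Bool × GeoV}
set_option synthInstance.maxSize 4000
attribute [local irreducible] gvs gpr gty
@[fun_prop] theorem pt_x (ha : PT a) (hj : PT j) (hv : PT v) : PT fun x => (mk (a x)).x (j x) (v x) := by
  simp only [G.x, mk]; fun_prop
@[fun_prop] theorem pt_val (ha : PT κ) (hj : PT c) : PT fun x => val (κ x) (c x) := by unfold val; fun_prop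
@[fun_prop] theorem pt_z : PT fun x => (mk (a x)).z := PT.const ((0, 0, false, 0, 0, true, 0) : C GeoV)
@[fun_prop] theorem pt_co (ha : PT a) : PT fun x => (mk (a x)).co := by simp only [G.co, mk]; fun_prop
attribute [local irreducible] G.x val G.z G.co
@[fun_prop] theorem pt_b0 (ha : PT a) (hκ : PT κ) (ht : PT t) : PT fun x => (mk (a x)).b0 (val (κ x)) (t x) := by
  unfold G.b0; fun_prop
@[fun_prop] theorem pt_b1 (hκ : PT κ) (ht : PT t) : PT fun x => (mk (a x)).b1 (val (κ x)) (t x) := by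
  unfold G.b1; fun_prop
attribute [local irreducible] G.b0 G.b1
@[fun_prop] theorem pt_φ (ha : PT a) (hκ : PT κ) (hc : PT c) : PT fun x => (mk (a x)).φ (val (κ x)) (c x) := by
  unfold G.φ; fun_prop
attribute [local irreducible] G.φ
@[fun_prop] theorem pt_vec (ha : PT a) (hc : PT c) : PT fun x => (mk (a x)).vec (c x) := by unfold G.vec; fun_prop
@[fun_prop] theorem pt_cards (ha : PT a) (hv : PT v) : PT fun x => (mk (a x)).cards (v x) := by
  have : PT fun p : (α × C GeoV) => decide ((mk (a p.1)).ok p.2 ∧ p.2 ≠ (0, 2, false, v p.1)) := by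
    simp only [G.ok, G.U, mk]; fun_prop
  exact PT.filter this (pt_co ha)
attribute [local irreducible] G.vec G.cards
theorem pt_inst : PT fun a : QI => (mk a).inst (0, 0, false, 0) := by unfold G.inst; fun_prop
end

theorem complete : PSPACEComplete fun x : {x // Valid x} => Win (Move x.1.1) x.1.2.toFinset := by
  refine ⟨psp, PSPACEHard.of_qbf false (fun a => ⟨(mk a).inst (0, 0, false, 0), valid (mk_ok a)
    (List.nodup_cons.2 ⟨by simp [mem_gvs], nodup_gvs a⟩)⟩) (PT.subtype pt_inst _) fun a hw => ?_⟩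
  have e : GM (mk a).vs (mk a).pr = GM (gvs a) (gpr a) := by
    ext p q
    have n : ∀ j, gpr a j (0, 0, true, 0) = none := by simp [gpr]
    simp only [GM, mk, List.mem_cons]
    grind
  rw [← sim (mk_ok a), Inv.win (mk_ok a) _ _ _ (init (mk_ok a) (List.mem_cons_of_mem _ (gstart a)) (by simp [mk]) rfl), e,
    geo_iff a hw]
  simp

end Pool.Agent.H.MP_cf31f8_lc
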